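import Pool.Agent.Helper2.TS.Spec

set_option autoImplicit false

open Polynomial
open scoped NumberField

namespace Pool.Agent.Helper2.TS.CP

open Pool.Agent.Helper20.EP Pool.Agent.Helper2.TS

theorem evz_add {D : ℕ} (r : ℤ) (a b : Fin D → ℤ) : evz r (a + b) = evz r a + evz r b := by
  simp [evz, add_mul, Finset.sum_add_distrib]

theorem main (hR : S_REP) : S_CP := by
  classical
  intro D
  obtain ⟨C, hC⟩ := hR D
  refine ⟨C, ?_⟩
  intro g H hg p hp r hr X
  choose t ht1 ht2 using fun j : Fin p => hC g H hg p hp r hr ((j : ℕ) : ℤ)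
  set R : ℝ := (p : ℝ) ^ (1 / (D : ℝ)) * H ^ C with hRdef
  have hR0 : 0 ≤ R := by
    have : (0 : ℝ) ≤ H := by linarith [hg.two_le]
    positivity
  set W : ℕ := ⌊(X : ℝ) + R⌋₊ with hW
  set A := (box D X).filter fun a => (p : ℤ) ∣ evz r a with hA
  have hinj : Set.InjOn (fun q : Fin p × (Fin D → ℤ) => t q.1 + q.2)
      (((Finset.univ : Finset (Fin p)) ×ˢ A : Finset (Fin p × (Fin D → ℤ))) : Set _) := by
    rintro ⟨i, a⟩ ha ⟨j, b⟩ hb h
    simp only [Finset.coe_product, Set.mem_prod, Finset.mem_coe, hA, Finset.mem_filter] at ha hb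
    have h1 : evz r (t i + a) = evz r (t j + b) := by
      exact congrArg (evz r) h
    rw [evz_add, evz_add] at h1
    have h2 : (p : ℤ) ∣ ((i : ℕ) : ℤ) - ((j : ℕ) : ℤ) := by
      have e : ((i : ℕ) : ℤ) - ((j : ℕ) : ℤ) = -(evz r (t i) - ((i : ℕ) : ℤ)) +
          (evz r (t j) - ((j : ℕ) : ℤ)) + evz r b - evz r a := by linarith
      rw [e]
      exact ((((ht1 i).neg_right).add (ht1 j)).add hb.2.2).sub ha.2.2
    have h3 : i = j := by
      have hi := i.2
      have hj := j.2
      have := Int.eq_zero_of_abs_lt_dvd h2 (by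
        rw [abs_lt]
        constructor <;> omega)
      apply Fin.ext
      omega
    subst h3
    have h4 : a = b := by
      have h5 : t i + a = t i + b := h
      exact add_left_cancel h5
    rw [h4]
  have hsub : Finset.image (fun q : Fin p × (Fin D → ℤ) => t q.1 + q.2)
      ((Finset.univ : Finset (Fin p)) ×ˢ A) ⊆ box D W := by
    intro c hc
    obtain ⟨⟨i, a⟩, ha, rfl⟩ := Finset.mem_image.1 hc
    simp only [Finset.mem_product, Finset.mem_univ, true_and, hA, Finset.mem_filter] at ha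
    rw [mem_box]
    intro k
    have h1 := mem_box.1 ha.1 k
    have h2 := ht2 i k
    have h3 : ((|(t i + a) k| : ℤ) : ℝ) ≤ X + R := by
      push_cast
      have : |((t i k : ℤ) : ℝ) + ((a k : ℤ) : ℝ)| ≤ |(t i k : ℝ)| + |(a k : ℝ)| := abs_add_le _ _
      have h4 : |(a k : ℝ)| ≤ X := by exact_mod_cast h1
      have e : ((t i + a) k : ℤ) = t i k + a k := rfl
      rw [e]
      push_cast
      linarith
    have h5 : ((|(t i + a) k|).toNat : ℝ) ≤ X + R := by
      have e : (((|(t i + a) k|).toNat : ℤ) : ℝ) = ((|(t i + a) k| : ℤ) : ℝ) := by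
        rw [Int.toNat_of_nonneg (abs_nonneg _)]
      have e2 : (((|(t i + a) k|).toNat : ℤ) : ℝ) = ((|(t i + a) k|).toNat : ℝ) := by
        push_cast
        rfl
      rw [← e2, e]
      exact h3
    have h6 : (|(t i + a) k|).toNat ≤ W := Nat.le_floor h5
    have h7 : ((|(t i + a) k|).toNat : ℤ) = |(t i + a) k| := Int.toNat_of_nonneg (abs_nonneg _)
    show |(t i + a) k| ≤ W
    rw [← h7]
    exact_mod_cast h6
  have h8 := Finset.card_le_card hsub
  rw [Finset.card_image_of_injOn hinj, Finset.card_product, Finset.card_univ, Fintype.card_fin,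
    box_card] at h8
  have h9 : (p : ℝ) * (A.card : ℝ) ≤ (2 * (W : ℝ) + 1) ^ D := by exact_mod_cast h8
  refine h9.trans ?_
  have h10 : (W : ℝ) ≤ X + R := Nat.floor_le (by positivity)
  exact pow_le_pow_left₀ (by positivity) (by linarith) _

end Pool.Agent.Helper2.TS.CP
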