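import Pool.Agent.Helper2.TS.NRM

set_option autoImplicit false

open Polynomial
open scoped NumberField

namespace Pool.Agent.Helper2.TS.DSC

open Pool.Agent.Helper20.EP Pool.Agent.Helper2.TS

theorem eval_der {g : ℤ[X]} {D : ℕ} {H : ℝ} (hg : Good g D H) {z : ℂ} (hz : z ∈ rts g) :
    ‖aeval z (derivative g)‖ ≤ (2 * H) ^ (D - 1) := by
  set G := g.map (Int.castRingHom ℂ) with hG
  have hGm : G.Monic := hg.monic.map _
  have hsp : G.Splits := IsAlgClosed.splits G
  have hcard : G.roots.card = D := by
    rw [← hsp.natDegree_eq_card_roots, hG, hg.monic.natDegree_map, hg.deg]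
  have hprod : G = (G.roots.map (fun a => X - C a)).prod := by
    have h := hsp.eq_prod_roots
    rw [hGm.leadingCoeff, C_1, one_mul] at h
    exact h
  have hzr : z ∈ G.roots := by
    rw [rts, Multiset.mem_toFinset] at hz
    exact hz
  obtain ⟨s, hs⟩ := Multiset.exists_cons_of_mem hzr
  have h1 : G = (X - C z) * (s.map (fun a => X - C a)).prod := by
    rw [hprod, hs]
    simp
  have h2 : eval z (derivative G) = (s.map (fun a => z - a)).prod := by
    rw [h1, derivative_mul, eval_add, eval_mul, eval_mul]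
    simp [eval_multiset_prod, Multiset.map_map]
  have h3 : aeval z (derivative g) = eval z (derivative G) := by
    rw [hG, derivative_map, eval_map, aeval_def]
    rfl
  have hs' : s.card = D - 1 := by
    rw [hs, Multiset.card_cons] at hcard
    omega
  have hroot : ∀ w ∈ G.roots, ‖w‖ ≤ H := by
    intro w hw
    refine hg.roots w ?_
    rw [← NRM.mem_rts hg.monic, rts, Multiset.mem_toFinset]
    exact hw
  rw [h3, h2, ← hs']
  have h4 : ∀ t : Multiset ℂ, (∀ w ∈ t, ‖w‖ ≤ H) → ‖(t.map (fun a => z - a)).prod‖ ≤ (2 * H) ^ t.card := by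
    intro t
    induction t using Multiset.induction_on with
    | empty => intro _; simp
    | cons w t ih =>
      intro ht
      rw [Multiset.map_cons, Multiset.prod_cons, norm_mul, Multiset.card_cons, pow_succ']
      have h5 : ‖z - w‖ ≤ 2 * H := by
        refine (norm_sub_le _ _).trans ?_
        have := hroot z hzr
        have := ht w (Multiset.mem_cons_self _ _)
        linarith
      have hH : (0 : ℝ) ≤ 2 * H := by linarith [hg.two_le]
      exact mul_le_mul h5 (ih fun v hv => ht v (Multiset.mem_cons_of_mem hv)) (norm_nonneg _) hH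
  exact h4 s fun w hw => hroot w (by rw [hs]; exact Multiset.mem_cons_of_mem hw)

theorem main (hN : S_NRM) : S_DSC := by
  intro D
  refine ⟨2 * (D - 1) * D, ?_⟩
  intro g H hg K _ _ θ hG
  obtain ⟨h1, -, h2⟩ := hN g D H hg
  obtain ⟨-, -, h3, -⟩ := h2 K θ hG
  rw [h3]
  have hH : (1 : ℝ) ≤ H := by linarith [hg.two_le]
  calc ∏ z ∈ rts g, ‖aeval z (derivative g)‖ ≤ ∏ z ∈ rts g, (H ^ 2) ^ (D - 1) := by
        refine Finset.prod_le_prod (fun _ _ => norm_nonneg _) fun z hz => ?_
        refine (eval_der hg hz).trans ?_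
        refine pow_le_pow_left₀ (by linarith) ?_ _
        nlinarith [hg.two_le]
    _ = H ^ (2 * (D - 1) * D) := by
        rw [Finset.prod_const, h1, ← pow_mul, ← pow_mul, ← mul_assoc]

end Pool.Agent.Helper2.TS.DSC
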