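import Pool.Agent.Helper2.TS.NRM

set_option autoImplicit false

open Polynomial
open scoped NumberField

namespace Pool.Agent.Helper2.TS.KEX

open Pool.Agent.Helper20.EP Pool.Agent.Helper2.TS

theorem main : S_KEX := by
  intro g D H hg
  have hirr : Irreducible (g.map (algebraMap ℤ ℚ)) := NRM.irrQ hg.monic hg.irr
  have : Fact (Irreducible (g.map (algebraMap ℤ ℚ))) := ⟨hirr⟩
  have hne : g.map (algebraMap ℤ ℚ) ≠ 0 := hirr.ne_zero
  let pb := AdjoinRoot.powerBasis hne
  have : FiniteDimensional ℚ (AdjoinRoot (g.map (algebraMap ℤ ℚ))) := pb.finite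
  have : CharZero (AdjoinRoot (g.map (algebraMap ℤ ℚ))) :=
    algebraRat.charZero _
  have : NumberField (AdjoinRoot (g.map (algebraMap ℤ ℚ))) := {}
  have hroot : aeval (AdjoinRoot.root (g.map (algebraMap ℤ ℚ))) g = 0 := by
    have h := AdjoinRoot.aeval_eq (f := g.map (algebraMap ℤ ℚ)) (g.map (algebraMap ℤ ℚ))
    rw [AdjoinRoot.mk_self, aeval_map_algebraMap] at h
    exact h
  have hint : IsIntegral ℤ (AdjoinRoot.root (g.map (algebraMap ℤ ℚ))) := ⟨g, hg.monic, by
    rw [← aeval_def]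
    exact hroot⟩
  refine ⟨AdjoinRoot (g.map (algebraMap ℤ ℚ)), inferInstance, inferInstance,
    ⟨AdjoinRoot.root (g.map (algebraMap ℤ ℚ)), hint⟩, ?_, ?_⟩
  · apply NumberField.RingOfIntegers.ext
    have h := aeval_algebraMap_apply (AdjoinRoot (g.map (algebraMap ℤ ℚ)))
      (⟨AdjoinRoot.root (g.map (algebraMap ℤ ℚ)), hint⟩ : 𝓞 (AdjoinRoot (g.map (algebraMap ℤ ℚ)))) g
    refine Eq.trans h.symm ?_
    exact hroot
  · rw [pb.finrank, AdjoinRoot.powerBasis_dim, hg.monic.natDegree_map, hg.deg]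

end Pool.Agent.Helper2.TS.KEX
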