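import Pool.Agent.Helper2.TS.Spec

set_option autoImplicit false

open Polynomial
open scoped NumberField IntermediateField

namespace Pool.Agent.Helper2.TS.NRM

open Pool.Agent.Helper20.EP Pool.Agent.Helper2.TS

theorem irrQ {g : ℤ[X]} (hm : g.Monic) (hi : Irreducible g) : Irreducible (g.map (algebraMap ℤ ℚ)) :=
  (Monic.irreducible_iff_irreducible_map_fraction_map hm).1 hi

theorem mem_rts {g : ℤ[X]} (hm : g.Monic) (z : ℂ) : z ∈ rts g ↔ aeval z g = 0 := by
  have h0 : g.map (Int.castRingHom ℂ) ≠ 0 := (hm.map _).ne_zero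
  rw [rts, Multiset.mem_toFinset, mem_roots h0, IsRoot.def, eval_map, aeval_def]
  rfl

theorem card_rts {g : ℤ[X]} (hm : g.Monic) (hi : Irreducible g) : (rts g).card = g.natDegree := by
  have h2 : (g.map (algebraMap ℤ ℚ)).Separable := (irrQ hm hi).separable
  have h3 := card_rootSet_eq_natDegree (K := ℂ) h2 (IsAlgClosed.splits _)
  rw [hm.natDegree_map] at h3
  have h4 : (rts g : Set ℂ) = (g.map (algebraMap ℤ ℚ)).rootSet ℂ := by
    ext z
    rw [Finset.mem_coe, mem_rts hm, mem_rootSet, aeval_map_algebraMap]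
    exact ⟨fun h => ⟨(hm.map _).ne_zero, h⟩, fun h => h.2⟩
  rw [← h3, ← Fintype.card_coe]
  refine Fintype.card_congr (Equiv.setCongr ?_)
  exact h4

variable {g : ℤ[X]} {D : ℕ} {H : ℝ} {K : Type} [Field K] [NumberField K] {θ : 𝓞 K}

theorem aeval_K (hG : Gen g D K θ) : aeval (θ : K) g = 0 := by
  have h := hG.root
  have h2 : algebraMap (𝓞 K) K (aeval θ g) = 0 := by rw [h, map_zero]
  rwa [← aeval_algebraMap_apply] at h2

theorem minpoly_eq (hg : Good g D H) (hG : Gen g D K θ) :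
    minpoly ℚ (θ : K) = g.map (algebraMap ℤ ℚ) := by
  symm
  refine minpoly.eq_of_irreducible_of_monic (irrQ hg.monic hg.irr) ?_ (hg.monic.map _)
  rw [aeval_map_algebraMap]
  exact aeval_K hG

theorem adj_top (hg : Good g D H) (hG : Gen g D K θ) : ℚ⟮(θ : K)⟯ = ⊤ := by
  rw [Field.primitive_element_iff_minpoly_natDegree_eq, minpoly_eq hg hG, hg.monic.natDegree_map,
    hg.deg, hG.rank]

theorem image_eq (hg : Good g D H) (hG : Gen g D K θ) :
    Finset.univ.image (fun σ : K →ₐ[ℚ] ℂ => σ (θ : K)) = rts g := by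
  have hinj : Function.Injective (fun σ : K →ₐ[ℚ] ℂ => σ (θ : K)) := by
    intro σ τ h
    exact (Field.primitive_element_iff_algHom_eq_of_eval ℚ ℂ (fun _ => IsAlgClosed.splits _) (θ : K) σ).1 (adj_top hg hG) τ h
  refine Finset.eq_of_subset_of_card_le ?_ ?_
  · intro z hz
    obtain ⟨σ, -, rfl⟩ := Finset.mem_image.1 hz
    rw [mem_rts hg.monic]
    have h : aeval (σ (θ : K)) g = σ (aeval (θ : K) g) := by
      exact aeval_algHom_apply (σ.restrictScalars ℤ) (θ : K) g
    rw [h, aeval_K hG, map_zero]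
  · rw [card_rts hg.monic hg.irr, hg.deg, Finset.card_image_of_injective _ hinj, Finset.card_univ,
      AlgHom.card, hG.rank]

theorem prod_eq (hg : Good g D H) (hG : Gen g D K θ) (x : 𝓞 K) (f : ℂ → ℂ)
    (hf : ∀ σ : K →ₐ[ℚ] ℂ, σ (x : K) = f (σ (θ : K))) :
    |((Algebra.norm ℤ x : ℤ) : ℝ)| = ∏ z ∈ rts g, ‖f z‖ := by
  have hinj : Function.Injective (fun σ : K →ₐ[ℚ] ℂ => σ (θ : K)) := by
    intro σ τ h
    exact (Field.primitive_element_iff_algHom_eq_of_eval ℚ ℂ (fun _ => IsAlgClosed.splits _) (θ : K) σ).1 (adj_top hg hG) τ h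
  have h1 : algebraMap ℚ ℂ (Algebra.norm ℚ (x : K)) = ∏ σ : K →ₐ[ℚ] ℂ, σ (x : K) :=
    Algebra.norm_eq_prod_embeddings ℚ ℂ (x : K)
  have h2 : ((Algebra.norm ℤ x : ℤ) : ℚ) = Algebra.norm ℚ (x : K) := Algebra.coe_norm_int x
  have h3 : (((Algebra.norm ℤ x : ℤ) : ℝ) : ℂ) = ∏ σ : K →ₐ[ℚ] ℂ, σ (x : K) := by
    rw [← h1, ← h2]
    simp
  have h4 : |((Algebra.norm ℤ x : ℤ) : ℝ)| = ‖(((Algebra.norm ℤ x : ℤ) : ℝ) : ℂ)‖ := by
    rw [Complex.norm_real, Real.norm_eq_abs]
  rw [h4, h3, norm_prod, ← image_eq hg hG, Finset.prod_image (fun _ _ _ _ h => hinj h)]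
  exact Finset.prod_congr rfl fun σ _ => by rw [hf σ]

theorem al_coe {a : Fin D → ℤ} : ((al θ a : 𝓞 K) : K) = ∑ i, (a i : K) * (θ : K) ^ (i : ℕ) := by
  simp [al]

theorem main : S_NRM := by
  intro g D H hg
  refine ⟨by rw [card_rts hg.monic hg.irr, hg.deg], mem_rts hg.monic, ?_⟩
  intro K _ _ θ hG
  refine ⟨fun a => ?_, fun a ha h0 => ?_, ?_, ?_⟩
  · refine prod_eq hg hG (al θ a) (fun z => ev z a) fun σ => ?_
    rw [al_coe, map_sum]
    simp [ev]
  · have h1 : ∑ i, (a i : K) * (θ : K) ^ (i : ℕ) = 0 := by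
      rw [← al_coe, h0]
      simp
    set A : ℚ[X] := ∑ i : Fin D, C (a i : ℚ) * X ^ (i : ℕ) with hA
    have h2 : aeval (θ : K) A = 0 := by
      rw [hA, map_sum, ← h1]
      exact Finset.sum_congr rfl fun i _ => by simp
    have hcoef : ∀ i : Fin D, A.coeff i = (a i : ℚ) := by
      intro i
      rw [hA, finsetSum_coeff]
      rw [Finset.sum_eq_single i]
      · simp
      · intro j _ hj
        rw [coeff_C_mul, coeff_X_pow, if_neg, mul_zero]
        exact fun h => hj (Fin.ext h.symm)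
      · intro h
        exact absurd (Finset.mem_univ _) h
    have h3 : A ≠ 0 := by
      intro h
      apply ha
      funext i
      have := hcoef i
      rw [h, coeff_zero] at this
      exact_mod_cast this.symm
    have h4 := minpoly.degree_le_of_ne_zero ℚ (θ : K) h3 h2
    rw [minpoly_eq hg hG, hg.monic.degree_map, degree_eq_natDegree hg.monic.ne_zero, hg.deg] at h4
    have h5 : A.degree < D := by
      rw [hA]
      refine (degree_sum_le _ _).trans_lt ?_
      refine (Finset.sup_lt_iff (WithBot.bot_lt_coe _)).2 fun i _ => ?_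
      refine (degree_C_mul_X_pow_le _ _).trans_lt ?_
      exact_mod_cast i.2
    exact absurd h4 (not_le.2 h5)
  · refine prod_eq hg hG (aeval θ (derivative g)) (fun z => aeval z (derivative g)) fun σ => ?_
    have h1 : ((aeval θ (derivative g) : 𝓞 K) : K) = aeval (θ : K) (derivative g) := by
      exact (aeval_algebraMap_apply K θ (derivative g)).symm
    rw [h1]
    exact (aeval_algHom_apply (σ.restrictScalars ℤ) (θ : K) (derivative g)).symm
  · intro h0
    rw [dsc, Algebra.norm_eq_zero_iff] at h0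
    have h1 : aeval (θ : K) (derivative g) = 0 := by
      rw [show (θ : K) = algebraMap (𝓞 K) K θ from rfl, aeval_algebraMap_apply, h0, map_zero]
    have h2 : (g.map (algebraMap ℤ ℚ)).Separable := (irrQ hg.monic hg.irr).separable
    have h3 : aeval (θ : K) (g.map (algebraMap ℤ ℚ)) = 0 := by
      rw [aeval_map_algebraMap]
      exact aeval_K hG
    have h4 := h2.aeval_derivative_ne_zero h3
    rw [derivative_map, aeval_map_algebraMap] at h4
    exact h4 h1

end Pool.Agent.Helper2.TS.NRM
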