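import Pool.Agent.Helper2.TS.Spec
import Pool.Agent.Helper72.EP.Count

set_option autoImplicit false

open Polynomial Module

namespace Pool.Agent.Helper2.TS.REP

open Pool.Agent.Helper20.EP Pool.Agent.Helper2.TS

theorem nat_le_pow {H : ℝ} (hH : 2 ≤ H) (n : ℕ) : (n : ℝ) ≤ H ^ n := by
  have h1 : (n : ℝ) ≤ 2 ^ n := by exact_mod_cast Nat.lt_two_pow_self.le
  exact h1.trans (pow_le_pow_left₀ (by norm_num) hH _)

theorem main : S_REP := by
  intro D
  refine ⟨D + (D + 2 * D + 1) * D, ?_⟩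
  rintro g H ⟨hm, hi, hd, hD, hH, hroots⟩ p hp r hr j
  subst hd
  classical
  have hH0 : (0 : ℝ) < H := by linarith
  have hH1 : (1 : ℝ) ≤ H := by linarith
  have hprime : Prime g := hi.prime
  have : IsDomain (AdjoinRoot g) := AdjoinRoot.isDomain_of_prime hprime
  have : Module.Free ℤ (AdjoinRoot g) := hm.free_adjoinRoot
  have : Module.Finite ℤ (AdjoinRoot g) := hm.finite_adjoinRoot
  have : Fact p.Prime := Fact.mk hp
  -- the bound of the coefficients
  set G : ℕ := ⌈H ^ g.natDegree * 2 ^ g.natDegree⌉₊ with hG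
  have hGl : H ^ g.natDegree * 2 ^ g.natDegree ≤ G := Nat.le_ceil _
  have hGc : ∀ i, |g.coeff i| ≤ (G : ℤ) := by
    intro i
    have := (Helper72.EP.coeff_le g hm H hH hroots i).trans hGl
    exact_mod_cast this
  have hpos : (1 : ℝ) ≤ H ^ g.natDegree * 2 ^ g.natDegree := by
    have h1 : (1 : ℝ) ≤ H ^ g.natDegree := one_le_pow₀ hH1
    have h2 : (1 : ℝ) ≤ 2 ^ g.natDegree := one_le_pow₀ (by norm_num)
    nlinarith
  have hG1 : (1 : ℤ) ≤ (G : ℤ) := by
    have : (1 : ℝ) ≤ G := hpos.trans hGl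
    exact_mod_cast this
  have hGu : (G : ℝ) ≤ H ^ (2 * g.natDegree + 1) := by
    have h1 : (G : ℝ) < H ^ g.natDegree * 2 ^ g.natDegree + 1 := Nat.ceil_lt_add_one (by positivity)
    have h2 : (2 : ℝ) ^ g.natDegree ≤ H ^ g.natDegree := pow_le_pow_left₀ (by norm_num) hH _
    have h3 : H ^ g.natDegree * 2 ^ g.natDegree ≤ H ^ (2 * g.natDegree) := by
      rw [two_mul, pow_add]
      exact mul_le_mul_of_nonneg_left h2 (by positivity)
    have h4 : H ^ (2 * g.natDegree + 1) = H * H ^ (2 * g.natDegree) := by rw [pow_succ']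
    have h5 : 2 * H ^ (2 * g.natDegree) ≤ H * H ^ (2 * g.natDegree) :=
      mul_le_mul_of_nonneg_right hH (by positivity)
    linarith
  have hx := Helper72.EP.mul_x_bd g hm (G : ℤ) hG1 hGc
  have hbk : ∀ k, (AdjoinRoot.powerBasisAux' hm) k = AdjoinRoot.root g ^ (k : ℕ) :=
    (AdjoinRoot.powerBasis' hm).basis_eq_pow
  have hKK : (1 : ℤ) ≤ (g.natDegree : ℤ) * G := by
    have : (1 : ℤ) ≤ g.natDegree := by exact_mod_cast hD
    nlinarith
  -- the root as a natural number
  set r0 : ℕ := (r % p).toNat with hr0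
  have hp0 : (p : ℤ) ≠ 0 := by exact_mod_cast hp.ne_zero
  have hr0' : (r0 : ℤ) = r % p := Int.toNat_of_nonneg (Int.emod_nonneg _ hp0)
  have hdiv : (p : ℤ) ∣ r - r0 := by
    rw [hr0']
    exact Int.dvd_self_sub_emod
  have h : (p : ℤ) ∣ g.eval (r0 : ℤ) := by
    have h1 : (r - r0) ∣ g.eval r - g.eval (r0 : ℤ) := sub_dvd_eval_sub _ _ _
    have h2 := hdiv.trans h1
    have h3 := hr.sub h2
    simpa using h3
  -- the box for the pigeonhole principle
  have hDpos : (0 : ℝ) < g.natDegree := by exact_mod_cast hD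
  have hpR : (0 : ℝ) < p := by exact_mod_cast hp.pos
  set m : ℕ := ⌊(p : ℝ) ^ (1 / (g.natDegree : ℝ))⌋₊ with hmdef
  have hm1 : p < (m + 1) ^ g.natDegree := by
    have h1 : (p : ℝ) ^ (1 / (g.natDegree : ℝ)) < m + 1 := Nat.lt_floor_add_one _
    have h2 : ((p : ℝ) ^ (1 / (g.natDegree : ℝ))) ^ g.natDegree = p := by
      rw [← Real.rpow_natCast, ← Real.rpow_mul hpR.le, one_div, inv_mul_cancel₀ hDpos.ne',
        Real.rpow_one]
    have h3 : (p : ℝ) < ((m : ℝ) + 1) ^ g.natDegree := by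
      calc (p : ℝ) = ((p : ℝ) ^ (1 / (g.natDegree : ℝ))) ^ g.natDegree := h2.symm
        _ < ((m : ℝ) + 1) ^ g.natDegree :=
          pow_lt_pow_left₀ h1 (Real.rpow_nonneg hpR.le _) (by omega)
    exact_mod_cast h3
  obtain ⟨t, ht1, ht2⟩ := Helper72.EP.exists_rep (AdjoinRoot.powerBasisAux' hm) (AdjoinRoot.root g)
    ((g.natDegree : ℤ) * G) hKK hx hbk (Helper72.EP.res g p r0 h) m hm1 (j : AdjoinRoot g)
  refine ⟨(AdjoinRoot.powerBasisAux' hm).equivFun t, ?_, ?_⟩
  · have h1 := Helper72.EP.res_pt g hm p r0 h ((AdjoinRoot.powerBasisAux' hm).equivFun t)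
    rw [LinearEquiv.symm_apply_apply, ht1, map_intCast] at h1
    have h2 : (p : ℤ) ∣ Helper72.EP.val ((AdjoinRoot.powerBasisAux' hm).equivFun t) r0 - j := by
      rw [← ZMod.intCast_zmod_eq_zero_iff_dvd, Int.cast_sub, ← h1, sub_self]
    have h3 : (p : ℤ) ∣ evz r ((AdjoinRoot.powerBasisAux' hm).equivFun t) -
        Helper72.EP.val ((AdjoinRoot.powerBasisAux' hm).equivFun t) r0 := by
      rw [evz, Helper72.EP.val, ← Finset.sum_sub_distrib]
      refine Finset.dvd_sum fun k _ => ?_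
      rw [← mul_sub]
      exact Dvd.dvd.mul_left (hdiv.trans (sub_dvd_pow_sub_pow _ _ _)) _
    have h4 := h3.add h2
    simpa using h4
  · intro i
    have h1 := ht2 i
    rw [← (AdjoinRoot.powerBasisAux' hm).equivFun_apply] at h1
    have h2 : |(((AdjoinRoot.powerBasisAux' hm).equivFun t i : ℤ) : ℝ)| ≤
        g.natDegree * (((g.natDegree : ℝ) * G) ^ g.natDegree * m) := by
      exact_mod_cast h1
    refine h2.trans ?_
    have h3 : (m : ℝ) ≤ (p : ℝ) ^ (1 / (g.natDegree : ℝ)) := Nat.floor_le (Real.rpow_nonneg hpR.le _)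
    have h4 : (g.natDegree : ℝ) * G ≤ H ^ (g.natDegree + 2 * g.natDegree + 1) := by
      rw [add_assoc, pow_add]
      exact mul_le_mul (nat_le_pow hH _) hGu (by positivity) (by positivity)
    have h5 : ((g.natDegree : ℝ) * G) ^ g.natDegree ≤
        H ^ ((g.natDegree + 2 * g.natDegree + 1) * g.natDegree) := by
      rw [pow_mul]
      exact pow_le_pow_left₀ (by positivity) h4 _
    calc (g.natDegree : ℝ) * (((g.natDegree : ℝ) * G) ^ g.natDegree * m)
        ≤ H ^ g.natDegree * (H ^ ((g.natDegree + 2 * g.natDegree + 1) * g.natDegree) *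
          (p : ℝ) ^ (1 / (g.natDegree : ℝ))) := by
          refine mul_le_mul (nat_le_pow hH _) ?_ (by positivity) (by positivity)
          exact mul_le_mul h5 h3 (by positivity) (by positivity)
      _ = (p : ℝ) ^ (1 / (g.natDegree : ℝ)) *
          H ^ (g.natDegree + (g.natDegree + 2 * g.natDegree + 1) * g.natDegree) := by
          rw [pow_add H g.natDegree]
          ring

end Pool.Agent.Helper2.TS.REP
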