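import Pool.Agent.Helper2.TS.TSM
import Pool.Agent.Helper2.TS.NRM
import Pool.Agent.Helper2.TS.KEX
import Pool.Agent.Helper2.TS.DSC
import Pool.Agent.Helper2.TS.CP
import Pool.Agent.Helper2.TS.REP
import Pool.Agent.Helper95.TS.DEC
import Pool.Agent.Helper95.TS.LHS
import Pool.Agent.Helper95.TS.MPJ
import Pool.Agent.Helper95.TS.SMALL
import Pool.Agent.Helper27.TS.ERR
import Pool.Agent.Helper27.TS.MAIN
import Pool.Agent.Helper51.TS.ABV
import Pool.Agent.Helper23.TS.DEG
import Pool.Agent.Helper48.TS.SUM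

/-!
# TS: the module TSM of the swarm EP
-/

set_option autoImplicit false

namespace Pool.Agent.Helper2.TS.All

open Pool.Agent.Helper20.EP Pool.Agent.Helper2.TS

theorem kex : S_KEX := KEX.main
theorem nrm : S_NRM := NRM.main
theorem dsc : S_DSC := DSC.main nrm
theorem rep : S_REP := REP.main
theorem cp : S_CP := CP.main rep
theorem small : S_SMALL := Pool.Agent.Helper95.TS.SMALL.main
theorem lhs : S_LHS := Pool.Agent.Helper95.TS.LHS.main kex nrm small
theorem mpj : S_MPJ := Pool.Agent.Helper95.TS.MPJ.main nrm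
theorem dec : S_DEC := Pool.Agent.Helper95.TS.DEC.main
theorem err : S_ERR := Pool.Agent.Helper27.TS.ERR.main nrm Pool.Agent.Helper51.TS.ABV.main dsc
  Pool.Agent.Helper48.TS.sum2 Pool.Agent.Helper48.TS.sum3
theorem mainTerms : S_MAIN := Pool.Agent.Helper27.TS.MAIN.main Pool.Agent.Helper23.TS.DEG.main cp
  Pool.Agent.Helper48.TS.sum1

/-- TSM, complete. -/
theorem main : S_TSM := TSM.main kex nrm lhs mpj dec err mainTerms

end Pool.Agent.Helper2.TS.All
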