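import Pool.Agent.Helper20.EP.Defs

/-!
# TS: definitions for the module TSM of the swarm EP (box version)
-/

set_option autoImplicit false

open Polynomial
open scoped NumberField

namespace Pool.Agent.Helper2.TS

open Pool.Agent.Helper20.EP

/-- The value at the complex number `z` of the polynomial with the coefficients `a`. -/
noncomputable def ev {D : ℕ} (z : ℂ) (a : Fin D → ℤ) : ℂ := ∑ i, (a i : ℂ) * z ^ (i : ℕ)

/-- The value at the integer `r` of the polynomial with the coefficients `a`. -/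
def evz {D : ℕ} (r : ℤ) (a : Fin D → ℤ) : ℤ := ∑ i, a i * r ^ (i : ℕ)

/-- The integer points of the box `[-X, X]^D`. -/
noncomputable def box (D X : ℕ) : Finset (Fin D → ℤ) := Fintype.piFinset fun _ => Finset.Icc (-(X : ℤ)) X

/-- The standing hypotheses on the polynomial. -/
structure Good (g : ℤ[X]) (D : ℕ) (H : ℝ) : Prop where
  monic : g.Monic
  irr : Irreducible g
  deg : g.natDegree = D
  one_le : 1 ≤ D
  two_le : 2 ≤ H
  roots : RootsLE g H

/-- The complex roots of `g`. -/
noncomputable def rts (g : ℤ[X]) : Finset ℂ := (g.map (Int.castRingHom ℂ)).roots.toFinset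

/-- `K` is generated by the root `θ` of `g`. -/
structure Gen (g : ℤ[X]) (D : ℕ) (K : Type) [Field K] [NumberField K] (θ : 𝓞 K) : Prop where
  root : aeval θ g = 0
  rank : Module.finrank ℚ K = D

/-- The element of the ring of integers with the coefficients `a`. -/
noncomputable def al {K : Type} [Field K] [NumberField K] (θ : 𝓞 K) {D : ℕ} (a : Fin D → ℤ) : 𝓞 K :=
  ∑ i, (a i : 𝓞 K) * θ ^ (i : ℕ)

open Classical in
/-- The prime ideals `≠ 0` of norm `≤ Z`. -/
noncomputable def PP (K : Type) [Field K] [NumberField K] (Z : ℕ) : Finset (Ideal (𝓞 K)) :=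
  ((Ideal.finite_setOfPred_absNorm_le (S := 𝓞 K) Z).subset
    (show {P : Ideal (𝓞 K) | P.IsPrime ∧ P ≠ ⊥ ∧ Ideal.absNorm P ≤ Z} ⊆ {P | Ideal.absNorm P ≤ Z} from
      fun _ h => h.2.2)).toFinset

theorem mem_PP {K : Type} [Field K] [NumberField K] {Z : ℕ} {P : Ideal (𝓞 K)} :
    P ∈ PP K Z ↔ P.IsPrime ∧ P ≠ ⊥ ∧ Ideal.absNorm P ≤ Z := by
  simp [PP]

/-- The norm of `g'(θ)`. -/
noncomputable def dsc (g : ℤ[X]) {K : Type} [Field K] [NumberField K] (θ : 𝓞 K) : ℤ :=
  Algebra.norm ℤ (aeval θ (derivative g))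

theorem box_card (D X : ℕ) : (box D X).card = (2 * X + 1) ^ D := by
  rw [box, Fintype.card_piFinset]
  have h : (Finset.Icc (-(X : ℤ)) (X : ℤ)).card = 2 * X + 1 := by
    rw [Int.card_Icc]
    omega
  simp [h]

theorem mem_box {D X : ℕ} {a : Fin D → ℤ} : a ∈ box D X ↔ ∀ i, |a i| ≤ X := by
  simp only [box, Fintype.mem_piFinset, Finset.mem_Icc, abs_le]

end Pool.Agent.Helper2.TS
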