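import Pool.Agent.Helper2.TS.Defs

/-!
# TS: exact statements of the parts of TSM
-/

set_option autoImplicit false

open Polynomial Filter Topology
open scoped NumberField

namespace Pool.Agent.Helper2.TS

open Pool.Agent.Helper20.EP

/-! ## The number field -/

/-- KEX: the number field of a root exists. -/
def S_KEX : Prop := ∀ (g : ℤ[X]) (D : ℕ) (H : ℝ), Good g D H →
  ∃ (K : Type) (_ : Field K) (_ : NumberField K) (θ : 𝓞 K), Gen g D K θ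

/-- NRM: the norm is the product of the values at the roots. -/
def S_NRM : Prop := ∀ (g : ℤ[X]) (D : ℕ) (H : ℝ), Good g D H →
  (rts g).card = D ∧ (∀ z : ℂ, z ∈ rts g ↔ aeval z g = 0) ∧
  ∀ (K : Type) [Field K] [NumberField K] (θ : 𝓞 K), Gen g D K θ →
    (∀ a : Fin D → ℤ, |((Algebra.norm ℤ (al θ a) : ℤ) : ℝ)| = ∏ z ∈ rts g, ‖ev z a‖) ∧
    (∀ a : Fin D → ℤ, a ≠ 0 → al θ a ≠ 0) ∧
    (|((dsc g θ : ℤ) : ℝ)| = ∏ z ∈ rts g, ‖aeval z (derivative g)‖) ∧ dsc g θ ≠ 0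

/-- DSC: the norm of `g'(θ)` is at most a power of `H`. -/
def S_DSC : Prop := ∀ D : ℕ, ∃ C : ℕ, ∀ (g : ℤ[X]) (H : ℝ), Good g D H →
  ∀ (K : Type) [Field K] [NumberField K] (θ : 𝓞 K), Gen g D K θ → |((dsc g θ : ℤ) : ℝ)| ≤ H ^ C

/-! ## Counting integer points -/

/-- SMALL: points with a small value. -/
def S_SMALL : Prop := ∀ (D : ℕ) (z : ℂ) (s : ℝ) (X : ℕ), 1 ≤ D → 0 ≤ s →
  (((box D X).filter fun a => ‖ev z a‖ ≤ s).card : ℝ) ≤ (2 * X + 1) ^ (D - 1) * (2 * s + 1)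

/-- LHS: the sum of the logarithms of the norms is large. -/
def S_LHS : Prop := ∀ D : ℕ, ∃ C : ℕ, ∀ (g : ℤ[X]) (H : ℝ), Good g D H → ∀ X : ℕ, 1 ≤ X →
  (2 * X + 1 : ℝ) ^ D * (D * Real.log X - H ^ C) ≤
    ∑ a ∈ (box D X).erase 0, Real.log (∏ z ∈ rts g, ‖ev z a‖)

/-! ## Representatives modulo the degree one ideals -/

/-- REP: small representatives. -/
def S_REP : Prop := ∀ D : ℕ, ∃ C : ℕ, ∀ (g : ℤ[X]) (H : ℝ), Good g D H → ∀ p : ℕ, p.Prime →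
  ∀ r : ℤ, (p : ℤ) ∣ g.eval r → ∀ j : ℤ, ∃ t : Fin D → ℤ, (p : ℤ) ∣ evz r t - j ∧
    ∀ i, |(t i : ℝ)| ≤ (p : ℝ) ^ (1 / (D : ℝ)) * H ^ C

/-- CP: counting the points of a degree one ideal. -/
def S_CP : Prop := ∀ D : ℕ, ∃ C : ℕ, ∀ (g : ℤ[X]) (H : ℝ), Good g D H → ∀ p : ℕ, p.Prime →
  ∀ r : ℤ, (p : ℤ) ∣ g.eval r → ∀ X : ℕ,
    p * (((box D X).filter fun a => (p : ℤ) ∣ evz r a).card : ℝ) ≤
      (2 * (X + (p : ℝ) ^ (1 / (D : ℝ)) * H ^ C) + 1) ^ D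

/-! ## Sums over primes -/

/-- SUM1 -/
def S_SUM1 : Prop := ∀ D : ℕ, 1 ≤ D → ∃ C : ℝ, 0 < C ∧ ∀ Y : ℝ, 1 ≤ Y →
  ∑ p ∈ primesLE Y, Real.log p / p * (p : ℝ) ^ (1 / (D : ℝ)) ≤ C * Y ^ (1 / (D : ℝ))

/-- SUM2 -/
def S_SUM2 : Prop := ∃ C : ℝ, 0 < C ∧ ∀ Y Z : ℝ, 1 ≤ Y → Y ≤ Z →
  ∑ p ∈ (primesLE Z).filter (fun p : ℕ => Y < p), Real.log p / p ≤ C * (1 + Real.log (Z / Y))

/-- SUM3 -/
def S_SUM3 : Prop := ∃ C : ℝ, 0 < C ∧ ∀ Y : ℝ, 1 ≤ Y →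
  ∑ p ∈ primesLE Y, Real.log p / (p : ℝ) ^ 2 ≤ C

/-! ## Prime ideals -/

open Classical in
/-- MPJ: the number of points in an ideal. -/
def S_MPJ : Prop := ∀ (g : ℤ[X]) (D : ℕ) (H : ℝ), Good g D H →
  ∀ (K : Type) [Field K] [NumberField K] (θ : 𝓞 K), Gen g D K θ →
    ∀ (I : Ideal (𝓞 K)), I ≠ ⊥ → ∀ X : ℕ,
      ((((box D X).erase 0).filter fun a => al θ a ∈ I).card : ℝ) ≤
        (4 * X * D * H ^ D) ^ D / (Ideal.absNorm I : ℝ)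

open Classical in
/-- DEC: the logarithm of the norm of an ideal as a sum over the powers of primes containing it. -/
def S_DEC : Prop := ∀ (K : Type) [Field K] [NumberField K] (Z J : ℕ), Z < 2 ^ (J + 1) →
  ∀ I : Ideal (𝓞 K), I ≠ ⊥ → Ideal.absNorm I ≤ Z →
    Real.log (Ideal.absNorm I : ℝ) = ∑ P ∈ PP K Z, ∑ j ∈ Finset.Icc 1 J,
      (if I ≤ P ^ j then Real.log (Ideal.absNorm P : ℝ) else 0)

/-- DEG: the primes of degree one and the roots modulo `p`. -/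
def S_DEG : Prop := ∀ (g : ℤ[X]) (D : ℕ) (H : ℝ), Good g D H →
  ∀ (K : Type) [Field K] [NumberField K] (θ : 𝓞 K), Gen g D K θ → ∀ p : ℕ, p.Prime →
    ∃ φ : Ideal (𝓞 K) → ℕ,
      (∀ P : Ideal (𝓞 K), P.IsPrime → Ideal.absNorm P = p → φ P < p ∧ (p : ℤ) ∣ g.eval (φ P : ℤ) ∧
        ∀ a : Fin D → ℤ, al θ a ∈ P ↔ (p : ℤ) ∣ evz (φ P : ℤ) a) ∧
      (¬ (p : ℤ) ∣ dsc g θ → ∀ P Q : Ideal (𝓞 K), P.IsPrime → Q.IsPrime →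
        Ideal.absNorm P = p → Ideal.absNorm Q = p → φ P = φ Q → P = Q)

/-- ABV: the primes above a prime number. -/
def S_ABV : Prop := ∀ (K : Type) [Field K] [NumberField K],
  (∀ P : Ideal (𝓞 K), P.IsPrime → P ≠ ⊥ → ∃ p f : ℕ, p.Prime ∧ 1 ≤ f ∧
    Ideal.absNorm P = p ^ f ∧ (p : 𝓞 K) ∈ P) ∧
  (∀ p : ℕ, p.Prime → ∀ s : Finset (Ideal (𝓞 K)), (∀ P ∈ s, P.IsPrime ∧ (p : 𝓞 K) ∈ P) →
    s.card ≤ Module.finrank ℚ K)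

open Classical in
/-- ERR: the sum of the terms which are not main terms. -/
def S_ERR : Prop := ∀ D : ℕ, ∃ C : ℕ, ∀ (g : ℤ[X]) (H : ℝ), Good g D H →
  ∀ (K : Type) [Field K] [NumberField K] (θ : 𝓞 K), Gen g D K θ → ∀ (Y : ℝ) (Z J : ℕ),
    1 ≤ Y → Y ≤ Z → ∑ P ∈ PP K Z, ∑ j ∈ Finset.Icc 1 J,
      (if j = 1 ∧ (Ideal.absNorm P).Prime ∧ (Ideal.absNorm P : ℝ) ≤ Y ∧
          ¬ (Ideal.absNorm P : ℤ) ∣ dsc g θ then 0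
        else Real.log (Ideal.absNorm P : ℝ) / (Ideal.absNorm P : ℝ) ^ j) ≤
      H ^ C * (1 + Real.log (Z / Y))

open Classical in
/-- MAIN: the sum of the main terms. -/
def S_MAIN : Prop := ∀ D : ℕ, ∃ C : ℕ, ∀ (g : ℤ[X]) (H : ℝ), Good g D H →
  ∀ (K : Type) [Field K] [NumberField K] (θ : 𝓞 K), Gen g D K θ → ∀ (Y : ℝ) (X Z : ℕ),
    1 ≤ Y → Y ^ (1 / (D : ℝ)) * H ^ C ≤ X →
      ∑ P ∈ PP K Z, (if (Ideal.absNorm P).Prime ∧ (Ideal.absNorm P : ℝ) ≤ Y ∧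
          ¬ (Ideal.absNorm P : ℤ) ∣ dsc g θ then
          Real.log (Ideal.absNorm P : ℝ) *
            ((((box D X).erase 0).filter fun a => al θ a ∈ P).card : ℝ) else 0) ≤
      (2 * X + 1 : ℝ) ^ D * (∑ p ∈ primesLE Y, (rho g p : ℝ) * Real.log p / p + C)

end Pool.Agent.Helper2.TS
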