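import Pool.Agent.Helper2.TS.Spec
import Pool.Agent.Helper20.EP.Spec1

set_option autoImplicit false

open Polynomial
open scoped NumberField

namespace Pool.Agent.Helper2.TS.TSM

open Pool.Agent.Helper20.EP Pool.Agent.Helper2.TS

theorem ev_le {g : ℤ[X]} {D : ℕ} {H : ℝ} (hg : Good g D H) {z : ℂ} (hz : aeval z g = 0) {X : ℕ}
    {a : Fin D → ℤ} (ha : a ∈ box D X) : ‖ev z a‖ ≤ D * H ^ D * X := by
  have hH : (1 : ℝ) ≤ H := by linarith [hg.two_le]
  have hz' : ‖z‖ ≤ H := hg.roots z hz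
  rw [ev]
  refine (norm_sum_le _ _).trans ?_
  have h1 : ∀ i : Fin D, ‖(a i : ℂ) * z ^ (i : ℕ)‖ ≤ X * H ^ D := by
    intro i
    rw [norm_mul, norm_pow]
    have h2 : ‖(a i : ℂ)‖ ≤ X := by
      rw [Complex.norm_intCast]
      exact_mod_cast mem_box.1 ha i
    have h3 : ‖z‖ ^ (i : ℕ) ≤ H ^ D :=
      (pow_le_pow_left₀ (norm_nonneg _) hz' _).trans (pow_le_pow_right₀ hH i.2.le)
    exact mul_le_mul h2 h3 (by positivity) (by positivity)
  refine (Finset.sum_le_sum fun i _ => h1 i).trans ?_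
  rw [Finset.sum_const, Finset.card_univ, Fintype.card_fin, nsmul_eq_mul]
  linarith

/-- numbers depending on `D` only are absorbed -/
theorem nat_le_pow {H : ℝ} (hH : 2 ≤ H) (n : ℕ) : (n : ℝ) ≤ H ^ n := by
  have h1 : (n : ℝ) ≤ 2 ^ n := by exact_mod_cast Nat.lt_two_pow_self.le
  exact h1.trans (pow_le_pow_left₀ (by norm_num) hH _)

theorem main (hKEX : S_KEX) (hNRM : S_NRM) (hLHS : S_LHS) (hMPJ : S_MPJ) (hDEC : S_DEC)
    (hERR : S_ERR) (hMAIN : S_MAIN) : S_TSM := by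
  classical
  intro D
  obtain ⟨C1, hC1⟩ := hLHS D
  obtain ⟨C2, hC2⟩ := hMAIN D
  obtain ⟨C3, hC3⟩ := hERR D
  -- exponents
  set C4 : ℕ := 2 * (2 * D) ^ D + (D + C2) * D with hC4
  set C5 : ℕ := (4 * D) ^ D + D * D + C3 + (C4 + 1) with hC5
  refine ⟨C1 + C2 + C5 + 2, ?_⟩
  intro g hm hi hd hD H hH hroots Y hY
  have hg : Good g D H := ⟨hm, hi, hd, hD, hH, hroots⟩
  have hH0 : (0 : ℝ) < H := by linarith
  have hH1 : (1 : ℝ) ≤ H := by linarith
  have hDR : (1 : ℝ) ≤ D := by exact_mod_cast hD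
  have hD0 : (D : ℝ) ≠ 0 := by positivity
  obtain ⟨K, hKF, hKN, θ, hG⟩ := hKEX g D H hg
  obtain ⟨hcard, hmem, hN⟩ := hNRM g D H hg
  obtain ⟨hNa, hNne, -, -⟩ := hN K θ hG
  -- the size of the box
  set y : ℝ := Y ^ (1 / (D : ℝ)) with hy
  have hy1 : 1 ≤ y := Real.one_le_rpow hY (by positivity)
  have hyD : y ^ D = Y := by
    rw [hy, ← Real.rpow_natCast, ← Real.rpow_mul (by linarith), one_div_mul_cancel hD0, Real.rpow_one]
  set X : ℕ := ⌈y * H ^ C2⌉₊ with hX
  have hXl : y * H ^ C2 ≤ X := Nat.le_ceil _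
  have hHC2 : (1 : ℝ) ≤ H ^ C2 := one_le_pow₀ hH1
  have hyH : 1 ≤ y * H ^ C2 := by nlinarith
  have hXu : (X : ℝ) ≤ 2 * (y * H ^ C2) := by
    have := Nat.ceil_lt_add_one (show 0 ≤ y * H ^ C2 by linarith)
    linarith
  have hX1R : (1 : ℝ) ≤ X := hyH.trans hXl
  have hX1 : 1 ≤ X := by exact_mod_cast hX1R
  have hyX : y ≤ X := by nlinarith
  -- the bound of the norms
  set U : ℝ := (D * H ^ D * X) ^ D with hU
  have hHD : (1 : ℝ) ≤ H ^ D := one_le_pow₀ hH1
  have hDH : (1 : ℝ) ≤ D * H ^ D := by nlinarith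
  have hDHX : (X : ℝ) ≤ D * H ^ D * X := by nlinarith
  have hYU : Y ≤ U := by
    rw [hU, ← hyD]
    exact pow_le_pow_left₀ (by linarith) (hyX.trans hDHX) _
  set Z : ℕ := ⌈U⌉₊ with hZ
  have hUZ : U ≤ Z := Nat.le_ceil _
  have hYZ : Y ≤ Z := hYU.trans hUZ
  have hZU : (Z : ℝ) ≤ 2 * U := by
    have := Nat.ceil_lt_add_one (show 0 ≤ U by linarith)
    linarith
  -- log (Z / Y)
  have hZY : (Z : ℝ) / Y ≤ H ^ C4 := by
    have hY0 : 0 < Y := by linarith
    rw [div_le_iff₀ hY0]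
    have h1 : D * H ^ D * X ≤ (2 * D) * H ^ (D + C2) * y := by
      rw [pow_add]
      have : D * H ^ D * X ≤ D * H ^ D * (2 * (y * H ^ C2)) :=
        mul_le_mul_of_nonneg_left hXu (by positivity)
      linarith
    have h2 : U ≤ ((2 * D) * H ^ (D + C2) * y) ^ D := by
      rw [hU]
      exact pow_le_pow_left₀ (by positivity) h1 _
    have h3 : ((2 * D : ℝ) * H ^ (D + C2) * y) ^ D = (2 * D) ^ D * H ^ ((D + C2) * D) * Y := by
      rw [mul_pow, mul_pow, hyD, ← pow_mul]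
    have h4 : (2 * (2 * D : ℝ) ^ D) ≤ H ^ (2 * (2 * D) ^ D) := by
      have := nat_le_pow hH (2 * (2 * D) ^ D)
      push_cast at this
      exact this
    calc (Z : ℝ) ≤ 2 * U := hZU
      _ ≤ 2 * ((2 * D) ^ D * H ^ ((D + C2) * D) * Y) := by
          rw [← h3]
          linarith
      _ = (2 * (2 * D) ^ D) * (H ^ ((D + C2) * D) * Y) := by ring
      _ ≤ H ^ (2 * (2 * D) ^ D) * (H ^ ((D + C2) * D) * Y) :=
          mul_le_mul_of_nonneg_right h4 (by positivity)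
      _ = H ^ C4 * Y := by rw [hC4, pow_add]; ring
  have hlogZY : 1 + Real.log (Z / Y) ≤ H ^ (C4 + 1) := by
    have hpos : 0 < (Z : ℝ) / Y := div_pos (by linarith) (by linarith)
    have h1 : Real.log (Z / Y) ≤ Z / Y - 1 := Real.log_le_sub_one_of_pos hpos
    have h2 : H ^ C4 ≤ H ^ (C4 + 1) := pow_le_pow_right₀ hH1 (by omega)
    linarith
  have hZJ : Z < 2 ^ (Z + 1) := Nat.lt_two_pow_self.trans (Nat.pow_lt_pow_right (by norm_num) (by omega))
  -- the sum of the logarithms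
  have hS1 := hC1 g H hg X hX1
  set n : ℝ := (2 * X + 1 : ℝ) ^ D with hn
  have hn0 : 0 < n := by positivity
  set Ssum : ℝ := ∑ a ∈ (box D X).erase 0, Real.log (∏ z ∈ rts g, ‖ev z a‖) with hSsum
  have hNorm : ∀ a ∈ (box D X).erase 0, ((Ideal.absNorm (Ideal.span {al θ a}) : ℕ) : ℝ) =
      ∏ z ∈ rts g, ‖ev z a‖ := by
    intro a _
    rw [← hNa a, Ideal.absNorm_span_singleton, Nat.cast_natAbs, Int.cast_abs]
  have hNle : ∀ a ∈ (box D X).erase 0, Ideal.absNorm (Ideal.span {al θ a}) ≤ Z := by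
    intro a ha
    have h1 : ((Ideal.absNorm (Ideal.span {al θ a}) : ℕ) : ℝ) ≤ Z := by
      rw [hNorm a ha]
      refine le_trans ?_ hUZ
      have hconst : ∏ _z ∈ rts g, (D * H ^ D * X : ℝ) = U := by
        rw [Finset.prod_const, hcard, hU]
      rw [← hconst]
      exact Finset.prod_le_prod (fun _ _ => norm_nonneg _) fun z hz =>
        ev_le hg ((hmem z).1 hz) (Finset.mem_of_mem_erase ha)
    exact_mod_cast h1
  have hne : ∀ a ∈ (box D X).erase 0, Ideal.span {al θ a} ≠ ⊥ := by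
    intro a ha
    rw [Ne, Ideal.span_singleton_eq_bot]
    exact hNne a (Finset.ne_of_mem_erase ha)
  have hS2 : Ssum = ∑ P ∈ PP K Z, ∑ j ∈ Finset.Icc 1 Z, Real.log (Ideal.absNorm P : ℝ) *
      ((((box D X).erase 0).filter fun a => al θ a ∈ P ^ j).card : ℝ) := by
    have h1 : Ssum = ∑ a ∈ (box D X).erase 0, ∑ P ∈ PP K Z, ∑ j ∈ Finset.Icc 1 Z,
        (if al θ a ∈ P ^ j then Real.log (Ideal.absNorm P : ℝ) else 0) := by
      rw [hSsum]
      refine Finset.sum_congr rfl fun a ha => ?_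
      rw [← hNorm a ha, hDEC K Z Z hZJ _ (hne a ha) (hNle a ha)]
      refine Finset.sum_congr rfl fun P _ => Finset.sum_congr rfl fun j _ => ?_
      simp only [Ideal.span_singleton_le_iff_mem]
    rw [h1, Finset.sum_comm]
    refine Finset.sum_congr rfl fun P _ => ?_
    rw [Finset.sum_comm]
    refine Finset.sum_congr rfl fun j _ => ?_
    rw [← Finset.sum_filter, Finset.sum_const, nsmul_eq_mul, mul_comm]
  -- the terms
  set B : ℝ := (4 * X * D * H ^ D) ^ D with hB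
  have hB0 : 0 ≤ B := by positivity
  set mn : Ideal (𝓞 K) → Prop := fun P => (Ideal.absNorm P).Prime ∧ (Ideal.absNorm P : ℝ) ≤ Y ∧
    ¬ (Ideal.absNorm P : ℤ) ∣ dsc g θ with hmn
  have hlog0 : ∀ P ∈ PP K Z, 0 ≤ Real.log (Ideal.absNorm P : ℝ) := fun P _ => Real.log_natCast_nonneg _
  have hS3 : Ssum ≤ (∑ P ∈ PP K Z, (if mn P then Real.log (Ideal.absNorm P : ℝ) *
        ((((box D X).erase 0).filter fun a => al θ a ∈ P).card : ℝ) else 0)) +
      B * ∑ P ∈ PP K Z, ∑ j ∈ Finset.Icc 1 Z,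
        (if j = 1 ∧ mn P then 0 else Real.log (Ideal.absNorm P : ℝ) / (Ideal.absNorm P : ℝ) ^ j) := by
    rw [hS2, Finset.mul_sum, ← Finset.sum_add_distrib]
    refine Finset.sum_le_sum fun P hP => ?_
    have hPb : P ≠ ⊥ := (mem_PP.1 hP).2.1
    have hterm : ∀ j ∈ Finset.Icc 1 Z, Real.log (Ideal.absNorm P : ℝ) *
        ((((box D X).erase 0).filter fun a => al θ a ∈ P ^ j).card : ℝ) ≤
        (if j = 1 then (if mn P then Real.log (Ideal.absNorm P : ℝ) *
          ((((box D X).erase 0).filter fun a => al θ a ∈ P).card : ℝ) else 0) else 0) +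
        B * (if j = 1 ∧ mn P then 0 else
          Real.log (Ideal.absNorm P : ℝ) / (Ideal.absNorm P : ℝ) ^ j) := by
      intro j _
      by_cases hj : j = 1 ∧ mn P
      · rw [if_pos hj, if_pos hj.1, if_pos hj.2, hj.1]
        simp
      · rw [if_neg hj]
        have h1 : 0 ≤ (if j = 1 then (if mn P then Real.log (Ideal.absNorm P : ℝ) *
          ((((box D X).erase 0).filter fun a => al θ a ∈ P).card : ℝ) else 0) else 0) := by
          split_ifs
          · exact mul_nonneg (hlog0 P hP) (Nat.cast_nonneg _)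
          · exact le_rfl
          · exact le_rfl
        have h2 := hMPJ g D H hg K θ hG (P ^ j) (pow_ne_zero j hPb) X
        rw [map_pow, Nat.cast_pow] at h2
        have h3 : Real.log (Ideal.absNorm P : ℝ) *
            ((((box D X).erase 0).filter fun a => al θ a ∈ P ^ j).card : ℝ) ≤
            B * (Real.log (Ideal.absNorm P : ℝ) / (Ideal.absNorm P : ℝ) ^ j) := by
          have e : B * (Real.log (Ideal.absNorm P : ℝ) / (Ideal.absNorm P : ℝ) ^ j) =
              Real.log (Ideal.absNorm P : ℝ) * (B / (Ideal.absNorm P : ℝ) ^ j) := by ring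
          rw [e]
          exact mul_le_mul_of_nonneg_left h2 (hlog0 P hP)
        linarith
    refine (Finset.sum_le_sum hterm).trans ?_
    rw [Finset.sum_add_distrib, ← Finset.mul_sum]
    refine add_le_add ?_ le_rfl
    rw [Finset.sum_ite_eq' (Finset.Icc 1 Z) 1]
    split_ifs with h1 h2 h2
    · exact le_rfl
    · exact le_rfl
    · exact mul_nonneg (hlog0 P hP) (Nat.cast_nonneg _)
    · exact le_rfl
  have hM := hC2 g H hg K θ hG Y X Z hY hXl
  have hE := hC3 g H hg K θ hG Y Z Z hY hYZ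
  set T : ℝ := ∑ p ∈ primesLE Y, (rho g p : ℝ) * Real.log p / p with hT
  have hE2 : (∑ P ∈ PP K Z, ∑ j ∈ Finset.Icc 1 Z,
        (if j = 1 ∧ mn P then 0 else Real.log (Ideal.absNorm P : ℝ) / (Ideal.absNorm P : ℝ) ^ j)) ≤
      H ^ C3 * H ^ (C4 + 1) := by
    refine le_trans (le_of_eq ?_) (hE.trans (mul_le_mul_of_nonneg_left hlogZY (by positivity)))
    refine Finset.sum_congr rfl fun P _ => Finset.sum_congr rfl fun j _ => ?_
    simp only [hmn]
  have hM2 : (∑ P ∈ PP K Z, (if mn P then Real.log (Ideal.absNorm P : ℝ) *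
        ((((box D X).erase 0).filter fun a => al θ a ∈ P).card : ℝ) else 0)) ≤ n * (T + C2) := hM
  have hBn : B ≤ n * ((4 * D) ^ D * H ^ (D * D)) := by
    have h1 : B = (X : ℝ) ^ D * ((4 * D) ^ D * H ^ (D * D)) := by
      rw [hB, show (4 * X * D * H ^ D : ℝ) = X * ((4 * D) * H ^ D) by ring, mul_pow, mul_pow, ← pow_mul]
    rw [h1]
    refine mul_le_mul_of_nonneg_right ?_ (by positivity)
    exact pow_le_pow_left₀ (by linarith) (by linarith) _
  have hfin : n * (D * Real.log X - H ^ C1) ≤ n * (T + C2) +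
      n * ((4 * D) ^ D * H ^ (D * D)) * (H ^ C3 * H ^ (C4 + 1)) := by
    refine hS1.trans (hS3.trans (add_le_add hM2 ?_))
    exact (mul_le_mul_of_nonneg_left hE2 hB0).trans (mul_le_mul_of_nonneg_right hBn (by positivity))
  have hfin2 : D * Real.log X - H ^ C1 ≤ T + C2 +
      ((4 * D) ^ D * H ^ (D * D)) * (H ^ C3 * H ^ (C4 + 1)) := by
    have : n * (D * Real.log X - H ^ C1) ≤ n * (T + C2 +
      ((4 * D) ^ D * H ^ (D * D)) * (H ^ C3 * H ^ (C4 + 1))) := by
      refine hfin.trans (le_of_eq ?_)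
      ring
    exact le_of_mul_le_mul_left this hn0
  have hlogX : Real.log Y ≤ D * Real.log X := by
    have h1 : Real.log Y = D * Real.log y := by
      rw [← hyD, Real.log_pow]
    rw [h1]
    exact mul_le_mul_of_nonneg_left (Real.log_le_log (by linarith) hyX) (by positivity)
  have hbig : ((4 * D : ℝ) ^ D * H ^ (D * D)) * (H ^ C3 * H ^ (C4 + 1)) ≤ H ^ C5 := by
    have h4 : ((4 * D : ℝ) ^ D) ≤ H ^ ((4 * D) ^ D) := by
      have := nat_le_pow hH ((4 * D) ^ D)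
      push_cast at this
      exact this
    calc ((4 * D : ℝ) ^ D * H ^ (D * D)) * (H ^ C3 * H ^ (C4 + 1))
        ≤ (H ^ ((4 * D) ^ D) * H ^ (D * D)) * (H ^ C3 * H ^ (C4 + 1)) := by
          refine mul_le_mul_of_nonneg_right ?_ (by positivity)
          exact mul_le_mul_of_nonneg_right h4 (by positivity)
      _ = H ^ C5 := by rw [hC5, pow_add, pow_add, pow_add]; ring
  have hC2H : (C2 : ℝ) ≤ H ^ C2 := nat_le_pow hH C2
  have e1 : H ^ C1 ≤ H ^ (C1 + C2 + C5) := pow_le_pow_right₀ hH1 (by omega)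
  have e2 : H ^ C2 ≤ H ^ (C1 + C2 + C5) := pow_le_pow_right₀ hH1 (by omega)
  have e3 : H ^ C5 ≤ H ^ (C1 + C2 + C5) := pow_le_pow_right₀ hH1 (by omega)
  have e4 : 4 * H ^ (C1 + C2 + C5) ≤ H ^ (C1 + C2 + C5 + 2) := by
    have h2 : (4 : ℝ) ≤ H ^ 2 := by nlinarith
    calc 4 * H ^ (C1 + C2 + C5) ≤ H ^ 2 * H ^ (C1 + C2 + C5) :=
          mul_le_mul_of_nonneg_right h2 (pow_pos hH0 _).le
      _ = H ^ (C1 + C2 + C5 + 2) := by rw [pow_add H (C1 + C2 + C5) 2, mul_comm]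
  have e5 : 0 < H ^ (C1 + C2 + C5) := pow_pos hH0 _
  linarith

end Pool.Agent.Helper2.TS.TSM
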